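import Mathlib

set_option autoImplicit false

open Filter Topology Finset
open scoped NNReal

namespace Pool.Agent.Results.MP_54d8ad_lc.Simple

open Classical in
/-- `A ∩ n`, the elements of `A` below `n`. -/
noncomputable def seg (A : Set ℕ) (n : ℕ) : Finset ℕ := (range n).filter (· ∈ A)

/-- `h : ω → [0, ∞)` with `∑ h = ∞` and `h n / ∑_{i ≤ n} h i → 0`. -/
def IsEUWeight (h : ℕ → ℝ) : Prop :=
  (∀ i, 0 ≤ h i) ∧ ¬ Summable h ∧
    Tendsto (fun n => h n / ∑ i ∈ range (n + 1), h i) atTop (𝓝 0)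

/-- The Erdős–Ulam ideal `EU_h`. -/
def EU (h : ℕ → ℝ) : Set (Set ℕ) :=
  {A | Tendsto (fun n => (∑ i ∈ seg A n, h i) / ∑ i ∈ range n, h i) atTop (𝓝 0)}

/-- The class `H`: nondecreasing `g : ω → ω` with `g n → ∞` and `n / g n ↛ 0`. -/
def InH (g : ℕ → ℕ) : Prop :=
  Monotone g ∧ Tendsto g atTop atTop ∧ ¬ Tendsto (fun n : ℕ => (n : ℝ) / g n) atTop (𝓝 0)

/-- The simple density ideal `Z_g`. -/
def Zs (g : ℕ → ℕ) : Set (Set ℕ) :=
  {A | Tendsto (fun n => ((seg A n).card : ℝ) / g n) atTop (𝓝 0)}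

/-- `f : [0, ∞) → [0, ∞)` is a modulus function: it vanishes exactly at `0`, is subadditive,
increasing (in the weak sense, which includes the strict one) and right-continuous at `0`. -/
def IsModulus (f : ℝ≥0 → ℝ≥0) : Prop :=
  (∀ x, f x = 0 ↔ x = 0) ∧ (∀ x y, f (x + y) ≤ f x + f y) ∧ Monotone f ∧ ContinuousAt f 0

/-- The ideal `Z_g(f)`. -/
def Zf (g : ℕ → ℕ) (f : ℝ≥0 → ℝ≥0) : Set (Set ℕ) :=
  {A | Tendsto (fun n => (f (seg A n).card : ℝ) / f (g n)) atTop (𝓝 0)}

/-- Proof device: in each dyadic block of length `2 ^ k` an element of small weight. -/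
noncomputable def pick (h : ℕ → ℝ) : ℕ → ℕ → ℕ
  | 0, j => j
  | k + 1, j => if h (pick h k (2 * j)) ≤ h (pick h k (2 * j + 1)) then pick h k (2 * j)
      else pick h k (2 * j + 1)

theorem pick_bound (h : ℕ → ℝ) (k : ℕ) : ∀ j, j * 2 ^ k ≤ pick h k j ∧ pick h k j < (j + 1) * 2 ^ k := by
  induction k with
  | zero => intro j; simp [pick]
  | succ k ih =>
    intro j
    have h1 := ih (2 * j)
    have h2 := ih (2 * j + 1)
    have h3 : 0 < 2 ^ k := by positivity
    simp only [pick, pow_succ]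
    split_ifs <;> constructor <;> nlinarith

theorem pick_inj (h : ℕ → ℝ) (k : ℕ) : Function.Injective (pick h k) := by
  refine StrictMono.injective (strictMono_nat_of_lt_succ fun j => ?_)
  exact (pick_bound h k j).2.trans_le (pick_bound h k (j + 1)).1

theorem pick_anti (h : ℕ → ℝ) : Antitone fun k => Set.range (pick h k) := by
  refine antitone_nat_of_succ_le fun k => ?_
  rintro _ ⟨j, rfl⟩
  simp only [pick]
  split_ifs
  · exact ⟨_, rfl⟩
  · exact ⟨_, rfl⟩

theorem pick_sum (h : ℕ → ℝ) (k : ℕ) :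
    ∀ J, 2 ^ k * ∑ j ∈ range J, h (pick h k j) ≤ ∑ i ∈ range (J * 2 ^ k), h i := by
  induction k with
  | zero => intro J; simp [pick]
  | succ k ih =>
    intro J
    have h1 : ∀ J, 2 * ∑ j ∈ range J, h (pick h (k + 1) j) ≤ ∑ j ∈ range (2 * J), h (pick h k j) := by
      intro J
      induction J with
      | zero => simp
      | succ J ihJ =>
        rw [sum_range_succ, show 2 * (J + 1) = 2 * J + 1 + 1 by ring, sum_range_succ, sum_range_succ]
        have : 2 * h (pick h (k + 1) J) ≤ h (pick h k (2 * J)) + h (pick h k (2 * J + 1)) := by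
          simp only [pick]
          split_ifs with hc <;> linarith
        linarith
    have h2 := ih (2 * J)
    rw [show J * 2 ^ (k + 1) = 2 * J * 2 ^ k by ring]
    have h3 : (0 : ℝ) < 2 ^ k := by positivity
    calc 2 ^ (k + 1) * ∑ j ∈ range J, h (pick h (k + 1) j)
        = 2 ^ k * (2 * ∑ j ∈ range J, h (pick h (k + 1) j)) := by ring
      _ ≤ 2 ^ k * ∑ j ∈ range (2 * J), h (pick h k j) := by gcongr; exact h1 J
      _ ≤ _ := h2

theorem pick_small {h : ℕ → ℝ} (hh : IsEUWeight h) (k : ℕ) {δ : ℝ} (hδ : 0 < δ) :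
    ∀ᶠ n in atTop, ∑ i ∈ seg (Set.range (pick h k)) n, h i ≤
      (1 / 2 ^ k + δ) * ∑ i ∈ range n, h i := by
  classical
  obtain ⟨h0, hs, ht⟩ := hh
  have hH := (not_summable_iff_tendsto_nat_atTop_of_nonneg h0).1 hs
  have hmono : Monotone fun n => ∑ i ∈ range n, h i := fun a b hab =>
    sum_le_sum_of_subset_of_nonneg (range_mono hab) fun i _ _ => h0 i
  have h1 : ∀ᶠ i in atTop, h i ≤ δ * ∑ j ∈ range (i + 1), h j := by
    filter_upwards [ht.eventually (gt_mem_nhds hδ),
      (hH.comp (tendsto_add_atTop_nat 1)).eventually_gt_atTop 0] with i hi hi'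
    exact ((div_lt_iff₀ hi').1 hi).le
  obtain ⟨T, hT⟩ := eventually_atTop.1 h1
  filter_upwards [eventually_ge_atTop (T * 2 ^ k)] with n hn
  have hp : 0 < 2 ^ k := by positivity
  set J := n / 2 ^ k with hJ
  have hTJ : T ≤ J := (Nat.le_div_iff_mul_le hp).2 hn
  have hJn : J * 2 ^ k ≤ n := Nat.div_mul_le_self _ _
  have hsub : seg (Set.range (pick h k)) n ⊆
      ((range J).image (pick h k)) ∪ ({pick h k J} : Finset ℕ).filter (· < n) := by
    intro i hi
    simp only [seg, mem_filter, mem_range] at hi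
    obtain ⟨hi1, j, rfl⟩ := hi
    have hj : j ≤ J := (Nat.le_div_iff_mul_le hp).2 ((pick_bound h k j).1.trans hi1.le)
    rcases hj.lt_or_eq with hj | rfl
    · exact mem_union_left _ (mem_image_of_mem _ (mem_range.2 hj))
    · exact mem_union_right _ (by simp [hi1])
  have hA : ∑ i ∈ (range J).image (pick h k), h i ≤ 1 / 2 ^ k * ∑ i ∈ range n, h i := by
    rw [sum_image fun a _ b _ hab => pick_inj h k hab]
    have := (pick_sum h k J).trans (hmono hJn)
    rw [one_div, ← div_eq_inv_mul, le_div_iff₀ (by positivity)]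
    linarith
  have hB : ∑ i ∈ ({pick h k J} : Finset ℕ).filter (· < n), h i ≤ δ * ∑ i ∈ range n, h i := by
    rw [filter_singleton]
    split_ifs with hc
    · rw [sum_singleton]
      have h2 : T ≤ pick h k J := by
        have := (pick_bound h k J).1
        nlinarith
      exact (hT _ h2).trans (mul_le_mul_of_nonneg_left (hmono hc) hδ.le)
    · simp only [sum_empty]
      exact mul_nonneg hδ.le (sum_nonneg fun i _ => h0 i)
  calc _ ≤ _ := sum_le_sum_of_subset_of_nonneg hsub fun i _ _ => h0 i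
    _ ≤ ∑ i ∈ (range J).image (pick h k), h i +
        ∑ i ∈ ({pick h k J} : Finset ℕ).filter (· < n), h i := by
      rw [← sum_union_inter]
      exact le_add_of_nonneg_right (sum_nonneg fun i _ => h0 i)
    _ ≤ _ := by linarith

theorem glue {h : ℕ → ℝ} (hh : IsEUWeight h) (N : ℕ → ℕ) (hN : StrictMono N) :
    ∃ A ∈ EU h, ∀ k, N k / 2 ^ k ≤ (seg A (N k)).card := by
  classical
  have h0 := hh.1
  have hH := (not_summable_iff_tendsto_nat_atTop_of_nonneg h0).1 hh.2.1
  refine ⟨{i | ∃ k, i ∈ Set.range (pick h k) ∧ i < N k}, ?_, fun k => ?_⟩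
  · refine tendsto_order.2 ⟨fun a ha => Eventually.of_forall fun n => ha.trans_le
      (div_nonneg (sum_nonneg fun i _ => h0 i) (sum_nonneg fun i _ => h0 i)), fun ε hε => ?_⟩
    obtain ⟨K, hK⟩ := exists_pow_lt_of_lt_one (show 0 < ε / 4 by positivity)
      (show (1 / 2 : ℝ) < 1 by norm_num)
    rw [one_div_pow] at hK
    filter_upwards [pick_small hh K (show 0 < ε / 4 by positivity), hH.eventually_gt_atTop 0,
      hH.eventually_ge_atTop ((∑ i ∈ range (N K), h i) / (ε / 4))] with n h1 h2 h3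
    have hsub : seg {i | ∃ k, i ∈ Set.range (pick h k) ∧ i < N k} n ⊆
        range (N K) ∪ seg (Set.range (pick h K)) n := by
      intro i hi
      simp only [seg, mem_filter, mem_range, mem_union] at hi ⊢
      obtain ⟨hi1, k, hk1, hk2⟩ := hi
      by_cases hc : i < N K
      · exact Or.inl hc
      · have : K ≤ k := (hN.lt_iff_lt.1 ((not_lt.1 hc).trans_lt hk2)).le
        exact Or.inr ⟨hi1, pick_anti h this hk1⟩
    have h4 : ∑ i ∈ seg {i | ∃ k, i ∈ Set.range (pick h k) ∧ i < N k} n, h i ≤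
        ∑ i ∈ range (N K), h i + ∑ i ∈ seg (Set.range (pick h K)) n, h i := by
      refine (sum_le_sum_of_subset_of_nonneg hsub fun i _ _ => h0 i).trans ?_
      rw [← sum_union_inter]
      exact le_add_of_nonneg_right (sum_nonneg fun i _ => h0 i)
    rw [div_le_iff₀ (by positivity)] at h3
    rw [div_lt_iff₀ h2]
    nlinarith
  · have hsub : (range (N k / 2 ^ k)).image (pick h k) ⊆
        seg {i | ∃ k, i ∈ Set.range (pick h k) ∧ i < N k} (N k) := by
      intro i hi
      obtain ⟨j, hj, rfl⟩ := mem_image.1 hi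
      have : pick h k j < N k := (pick_bound h k j).2.trans_le
        ((Nat.mul_le_mul_right _ (mem_range.1 hj)).trans (Nat.div_mul_le_self _ _))
      simp only [seg, mem_filter, mem_range]
      exact ⟨this, k, ⟨j, rfl⟩, this⟩
    have := card_le_card hsub
    rwa [card_image_of_injective _ (pick_inj h k), card_range] at this

theorem card_seg (A : Set ℕ) (n : ℕ) : (seg A n).card ≤ n := by
  classical
  exact (card_filter_le _ _).trans (card_range n).le

theorem result (h : ℕ → ℝ) (hh : IsEUWeight h) (g : ℕ → ℕ) (hg : InH g) (f : ℝ≥0 → ℝ≥0)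
    (hf : IsModulus f) (hu : ¬ BddAbove (Set.range f)) (he : EU h = Zf g f) :
    ∃ g' : ℕ → ℕ, InH g' ∧ EU h = Zs g' := by
  obtain ⟨hf0, hfa, hfm, -⟩ := hf
  obtain ⟨hgm, hgt, hgn⟩ := hg
  let φ : ℕ → ℝ := fun k => f k
  have hφ0 : ∀ k, 0 ≤ φ k := fun k => NNReal.coe_nonneg _
  have hφp : ∀ k, 0 < k → 0 < φ k := fun k hk => by
    have : f k ≠ 0 := fun h => by have := (hf0 _).1 h; simp at this; omega
    exact NNReal.coe_pos.2 (pos_iff_ne_zero.2 this)
  have hφm : Monotone φ := fun a b hab => NNReal.coe_le_coe.2 (hfm (by exact_mod_cast hab))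
  have hmul : ∀ m a : ℕ, φ (m * a) ≤ m * φ a := by
    intro m a
    induction m with
    | zero => simp [φ, (hf0 0).2 rfl]
    | succ m ih =>
      have : φ ((m + 1) * a) ≤ φ (m * a) + φ a := by
        have := hfa ((m * a : ℕ) : ℝ≥0) a
        simp only [φ]
        rw [show (((m + 1) * a : ℕ) : ℝ≥0) = ((m * a : ℕ) : ℝ≥0) + a by push_cast; ring]
        exact_mod_cast this
      push_cast; linarith
  have hK : ∀ a n : ℕ, a ≤ n → a * φ n ≤ 2 * n * φ a := by
    intro a n han
    rcases Nat.eq_zero_or_pos a with rfl | ha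
    · simp only [Nat.cast_zero, zero_mul]; have := hφ0 0; positivity
    have h1 : n ≤ (n / a + 1) * a := by
      have := Nat.lt_div_mul_add (a := n) ha
      nlinarith
    have h2 := (hφm h1).trans (hmul _ _)
    have h3 : a * (n / a + 1) ≤ 2 * n := by
      have := Nat.mul_div_le n a
      nlinarith
    have h4 : (a : ℝ) * ((n / a + 1 : ℕ) : ℝ) ≤ 2 * n := by exact_mod_cast h3
    have h5 := hφ0 a
    calc (a : ℝ) * φ n ≤ a * (((n / a + 1 : ℕ) : ℝ) * φ a) := by gcongr
      _ = (a * ((n / a + 1 : ℕ) : ℝ)) * φ a := by ring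
      _ ≤ _ := by gcongr
  have hφt : Tendsto φ atTop atTop := by
    refine tendsto_atTop_atTop_of_monotone hφm fun b => ?_
    obtain ⟨_, ⟨x, rfl⟩, hx⟩ := not_bddAbove_iff.1 hu b.toNNReal
    obtain ⟨n, hn⟩ := exists_nat_ge x
    exact ⟨n, (Real.le_coe_toNNReal b).trans (NNReal.coe_le_coe.2 (hx.le.trans (hfm hn)))⟩
  have hφg : Tendsto (fun n => φ (g n)) atTop atTop := hφt.comp hgt
  have hstar : ∀ ε : ℝ, 0 < ε → ∃ k : ℕ, ∀ᶠ n in atTop, φ (n / 2 ^ k) ≤ ε * φ (g n) := by
    intro ε hε
    by_contra hc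
    push Not at hc
    obtain ⟨N, hN, hN'⟩ := extraction_forall_of_frequently hc
    obtain ⟨A, hA, hA'⟩ := glue hh N hN
    rw [he] at hA
    have hA2 : Tendsto (fun n => φ (seg A n).card / φ (g n)) atTop (𝓝 0) := hA
    obtain ⟨k, hk1, hk2⟩ := (hN.tendsto_atTop.eventually
      ((hA2.eventually (gt_mem_nhds hε)).and (hφg.eventually_gt_atTop 0))).exists
    rw [div_lt_iff₀ hk2] at hk1
    exact absurd ((hN' k).trans_le (hφm (hA' k))) (not_lt.2 hk1.le)
  let u : ℕ → ℝ := fun n => n * φ (g n) / φ n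
  have hu0 : ∀ n, 0 ≤ u n := fun n => div_nonneg (mul_nonneg n.cast_nonneg (hφ0 _)) (hφ0 _)
  have huq : ∀ m n, m ≤ n → 0 < n → u m ≤ 2 * u n := by
    intro m n hmn hn
    rcases Nat.eq_zero_or_pos m with rfl | hm
    · have := hu0 n; simp only [u, Nat.cast_zero, zero_mul, zero_div]; positivity
    have h1 := hK m n hmn
    have h2 := hφm (hgm hmn)
    have h3 := hφp m hm
    have h4 := hφp n hn
    have h5 := hφ0 (g m)
    simp only [u]
    rw [← mul_div_assoc, div_le_div_iff₀ h3 h4]
    calc (m : ℝ) * φ (g m) * φ n = (m * φ n) * φ (g m) := by ring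
      _ ≤ (2 * n * φ m) * φ (g n) := by gcongr
      _ = _ := by ring
  have hut : Tendsto u atTop atTop := by
    refine tendsto_atTop_mono' atTop ?_ (hφg.atTop_div_const (hφp 1 one_pos))
    filter_upwards [eventually_gt_atTop 0] with n hn
    have h1 := hmul n 1
    rw [mul_one] at h1
    have h5 := hφ0 (g n)
    simp only [u]
    rw [div_le_div_iff₀ (hφp 1 one_pos) (hφp n hn)]
    nlinarith
  let g' : ℕ → ℕ := fun n => (range (n + 1)).sup fun m => ⌈u m⌉₊
  have hlow : ∀ n, u n ≤ g' n := fun n => (Nat.le_ceil _).trans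
    (by exact_mod_cast le_sup (f := fun m => ⌈u m⌉₊) (self_mem_range_succ n))
  have hup : ∀ᶠ n in atTop, (g' n : ℝ) ≤ 3 * u n := by
    filter_upwards [eventually_gt_atTop 0, hut.eventually_ge_atTop 1] with n hn h1
    have : g' n ≤ ⌈2 * u n⌉₊ := Finset.sup_le fun m hm =>
      Nat.ceil_mono (huq m n (Nat.lt_succ_iff.1 (mem_range.1 hm)) hn)
    have h2 : (g' n : ℝ) ≤ ⌈2 * u n⌉₊ := by exact_mod_cast this
    have h3 := Nat.ceil_lt_add_one (show 0 ≤ 2 * u n by linarith)
    linarith
  have hpos : ∀ᶠ n in atTop, 0 < n ∧ 0 < φ n ∧ 0 < φ (g n) ∧ 0 < u n ∧ (0 : ℝ) < g' n ∧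
      u n * φ n = n * φ (g n) := by
    filter_upwards [eventually_gt_atTop 0, hφg.eventually_gt_atTop 0, hut.eventually_gt_atTop 0]
      with n h1 h2 h3
    exact ⟨h1, hφp n h1, h2, h3, h3.trans_le (hlow n), div_mul_cancel₀ _ (hφp n h1).ne'⟩
  refine ⟨g', ⟨fun a b hab => sup_mono (range_mono (by omega)), ?_, fun hc => hgn ?_⟩, ?_⟩
  · exact tendsto_natCast_atTop_iff.1 (tendsto_atTop_mono hlow hut)
  · refine squeeze_zero' (Eventually.of_forall fun n => by positivity) ?_
      (by simpa using hc.const_mul 6)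
    filter_upwards [hpos, hup, hc.eventually (gt_mem_nhds (show (0 : ℝ) < 1 / 3 by norm_num)),
      hgt.eventually_gt_atTop 0] with n ⟨h1, h2, h3, h4, h5, h6⟩ h7 h8 h9
    have hn : (0 : ℝ) < n := by exact_mod_cast h1
    have hgn' : (0 : ℝ) < g n := by exact_mod_cast h9
    rw [div_lt_iff₀ h5] at h8
    have h10 : n ≤ g n := by
      by_contra hlt
      have := hφm (not_le.1 hlt).le
      have : u n * φ n ≤ n * φ n := by rw [h6]; gcongr
      have := le_of_mul_le_mul_right this h2
      linarith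
    have h11 := hK n (g n) h10
    rw [← h6] at h11
    have h12 : u n ≤ 2 * g n := le_of_mul_le_mul_right h11 h2
    rw [← mul_div_assoc, div_le_div_iff₀ hgn' h5]
    nlinarith
  · rw [he]
    ext A
    change Tendsto (fun n => φ (seg A n).card / φ (g n)) atTop (𝓝 0) ↔
      Tendsto (fun n => ((seg A n).card : ℝ) / g' n) atTop (𝓝 0)
    constructor
    · intro hA
      refine squeeze_zero' (Eventually.of_forall fun n => by positivity) ?_
        (by simpa using hA.const_mul 2)
      filter_upwards [hpos] with n ⟨h1, h2, h3, h4, h5, h6⟩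
      have hn : (0 : ℝ) < n := by exact_mod_cast h1
      have h7 := hK _ n (card_seg A n)
      have h8 := hlow n
      have h9 := hφ0 (seg A n).card
      rw [← mul_div_assoc, div_le_div_iff₀ h5 h3]
      have h10 : (seg A n).card * φ (g n) * n ≤ 2 * φ (seg A n).card * u n * n := by
        calc (seg A n).card * φ (g n) * n = ((seg A n).card * φ n) * u n := by
              rw [mul_assoc, mul_comm _ (n : ℝ), ← h6]; ring
          _ ≤ (2 * n * φ (seg A n).card) * u n := by gcongr
          _ = _ := by ring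
      exact (le_of_mul_le_mul_right h10 hn).trans (by gcongr)
    · intro hA
      refine tendsto_order.2 ⟨fun a ha => Eventually.of_forall fun n => ha.trans_le
        (div_nonneg (hφ0 _) (hφ0 _)), fun ε hε => ?_⟩
      obtain ⟨k, hk⟩ := hstar (ε / 2) (by positivity)
      filter_upwards [hpos, hup, hk,
        hA.eventually (gt_mem_nhds (show 0 < ε / 2 / (3 * 2 ^ k) by positivity))]
        with n ⟨h1, h2, h3, h4, h5, h6⟩ h7 h8 h9
      have hn : (0 : ℝ) < n := by exact_mod_cast h1
      have key : φ (seg A n).card ≤ ε / 2 * φ (g n) := by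
        by_cases hc : φ n ≤ ε / 2 * φ (g n)
        · exact (hφm (card_seg A n)).trans hc
        · refine (hφm ((Nat.le_div_iff_mul_le (by positivity)).2 ?_)).trans h8
          have h10 : u n * (ε / 2) ≤ n := by
            have : u n * (ε / 2 * φ (g n)) ≤ n * φ (g n) := by
              rw [← h6]; gcongr; exact (not_le.1 hc).le
            rw [← mul_assoc] at this
            exact le_of_mul_le_mul_right this h3
          rw [div_lt_div_iff₀ h5 (by positivity)] at h9
          have : ((seg A n).card : ℝ) * 2 ^ k ≤ n := by nlinarith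
          exact_mod_cast this
      rw [div_lt_iff₀ h3]
      nlinarith

end Pool.Agent.Results.MP_54d8ad_lc.Simple
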